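import Pool.Agent.Helper94.PQ.Stmts

/-!
# The displacement of the norm of the uniformiser
-/

set_option autoImplicit false

open scoped Classical

namespace PQ

open BKA Pool.Agent.Helper13.Swan Polynomial

section disc

variable {Ω P : Type} [Field Ω] [Group P] [MulSemiringAction P Ω] [Fintype P]
  {w : Valuation Ω (WithZero (Multiplicative ℤ))} {π : Ω}

omit [Fintype P] in
/-- approximation by polynomials in the uniformiser with invariant coefficients -/
theorem disc_approx (hB : Base P w π) (N : ℕ) : ∀ x : Ω, w x ≤ 1 →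
    ∃ q : Polynomial Ω, (∀ k, (∀ τ : P, τ • q.coeff k = q.coeff k) ∧ w (q.coeff k) ≤ 1) ∧
      w (x - q.eval π) ≤ ex N := by
  induction N with
  | zero =>
    intro x hx
    refine ⟨0, fun k => ⟨fun τ => by simp, by simp⟩, ?_⟩
    simpa [ex_zero] using hx
  | succ N ih =>
    intro x hx
    obtain ⟨a, ha, hxa⟩ := hB.res x hx
    have hπ := hB.pi_ne
    have hwa : w a ≤ 1 := by
      have e1 : a = x - (x - a) := by ring
      rw [e1]
      exact w.map_sub_le hx hxa.le
    have h1 : w ((x - a) / π) ≤ 1 := by
      rw [map_div₀, hB.unif]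
      exact div_le_one_of_le₀ (lt_one_iff.1 hxa) zero_le
    obtain ⟨q, hq, hq2⟩ := ih _ h1
    refine ⟨C a + X * q, ?_, ?_⟩
    · intro k
      cases k with
      | zero =>
        simp only [coeff_add, coeff_C_zero, mul_coeff_zero, coeff_X_zero, zero_mul, add_zero]
        exact ⟨ha, hwa⟩
      | succ k =>
        have e1 : (C a + X * q).coeff (k + 1) = q.coeff k := by
          rw [coeff_add, coeff_C_succ, coeff_X_mul, zero_add]
        rw [e1]
        exact hq k
    · have e1 : x - (C a + X * q).eval π = π * ((x - a) / π - q.eval π) := by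
        rw [eval_add, eval_C, eval_mul, eval_X]
        field_simp
        ring
      rw [e1, map_mul, hB.unif]
      push_cast
      rw [add_comm, ex_add]
      gcongr

/-- the integers of the fixed field of `H` -/
def discO (w : Valuation Ω (WithZero (Multiplicative ℤ))) (H : Subgroup P) : Subring Ω where
  carrier := {x | Fx H x ∧ w x ≤ 1}
  mul_mem' := by
    intro a b ha hb
    refine ⟨ha.1.mul hb.1, ?_⟩
    rw [map_mul]
    exact mul_le_one' ha.2 hb.2
  one_mem' := ⟨Fx.one, by rw [map_one]⟩
  add_mem' := by
    intro a b ha hb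
    exact ⟨ha.1.add hb.1, w.map_add_le ha.2 hb.2⟩
  zero_mem' := ⟨fun τ _ => smul_zero _, by rw [map_zero]; exact zero_le⟩
  neg_mem' := by
    intro a ha
    refine ⟨ha.1.neg, ?_⟩
    rw [Valuation.map_neg]
    exact ha.2

theorem disc_eval_le {δ : WithZero (Multiplicative ℤ)} (p : Polynomial Ω) (hp : ∀ k, w (p.coeff k) ≤ δ)
    {x : Ω} (hx : w x ≤ 1) : w (p.eval x) ≤ δ := by
  rw [eval_eq_sum_range]
  apply w.map_sum_le
  intro k _
  rw [map_mul, map_pow]
  exact (mul_le_of_le_one_right zero_le (pow_le_one₀ zero_le hx)).trans (hp k)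

theorem disc_le (hB : Base P w π) [FaithfulSMul P Ω] (H : Subgroup P) [Fintype H] (g : P) :
    w (g • nm H π - nm H π) ≤ ∏ h : H, w ((g * h) • π - π) := by
  have hπ1 : w π ≤ 1 := by rw [hB.unif, ← ex_zero, ex_le_ex]; norm_num
  have hν1 : w (nm H π) ≤ 1 := by
    rw [hB.val_nm_pi, ← ex_zero, ex_le_ex]; positivity
  apply le_of_forall_le_max
  intro n
  obtain ⟨q, hq, hq2⟩ := disc_approx hB (n + Nat.card H) (nm H π) hν1
  set ν := nm H π with hν
  set f := nmPoly H π with hf
  set R := discO w H with hR
  have hfR : (↑f.coeffs : Set Ω) ⊆ R := by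
    intro x hx
    obtain ⟨k, _, rfl⟩ := mem_coeffs_iff.1 hx
    exact ⟨nmPoly_coeff_fixed H π k, hB.val_nmPoly_coeff H hπ1 k⟩
  have hpR : (↑(q - C ν).coeffs : Set Ω) ⊆ R := by
    intro x hx
    obtain ⟨k, _, rfl⟩ := mem_coeffs_iff.1 hx
    rw [coeff_sub]
    apply R.sub_mem
    · exact ⟨fun τ _ => (hq k).1 τ, (hq k).2⟩
    · rw [coeff_C]
      split_ifs
      · exact ⟨nm_fixed H π, hν1⟩
      · exact R.zero_mem
  have hfm : (f.toSubring R hfR).Monic := by
    rw [monic_toSubring]
    exact nmPoly_monic H π
  have hcard : 0 < Nat.card H := Nat.card_pos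
  have hfn : (f.toSubring R hfR).natDegree = Nat.card H := by
    rw [natDegree_toSubring]
    exact nmPoly_natDegree H π
  set s' := (q - C ν).toSubring R hpR /ₘ f.toSubring R hfR with hs'
  set r' := (q - C ν).toSubring R hpR %ₘ f.toSubring R hfR with hr'
  have hdiv : r' + f.toSubring R hfR * s' = (q - C ν).toSubring R hpR :=
    modByMonic_add_div _ _
  have hrdeg : r'.natDegree < Nat.card H := by
    rw [← hfn]
    apply natDegree_modByMonic_lt _ hfm
    intro h1
    rw [h1, natDegree_one] at hfn
    omega
  set s := s'.map R.subtype with hs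
  set r := r'.map R.subtype with hr
  have hdiv2 : r + f * s = q - C ν := by
    have h1 := congrArg (fun p => p.map R.subtype) hdiv
    simp only [Polynomial.map_add, Polynomial.map_mul, map_toSubring] at h1
    exact h1
  have hsc : ∀ k, s.coeff k ∈ R := by
    intro k
    rw [hs, coeff_map]
    exact (s'.coeff k).2
  have hrc : ∀ k, r.coeff k ∈ R := by
    intro k
    rw [hr, coeff_map]
    exact (r'.coeff k).2
  have hrdeg2 : r.natDegree < Nat.card H := lt_of_le_of_lt natDegree_map_le hrdeg
  have hreval : r.eval π = q.eval π - ν := by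
    have h1 := congrArg (fun p => p.eval π) hdiv2
    simp only [eval_add, eval_mul, eval_sub, eval_C] at h1
    rw [hf, nmPoly_eval_self, zero_mul, add_zero] at h1
    exact h1
  have hrsmall : ∀ k, w (r.coeff k) ≤ ex n := by
    intro k
    by_cases hk : k < Nat.card H
    · have h1 := hB.val_combo H (fun k => r.coeff k) (fun k => (hrc k).1) k hk
      rw [← eval_eq_sum_range' hrdeg2, hreval, ← Valuation.map_neg w (q.eval π - ν),
        neg_sub] at h1
      have h2 := h1.trans hq2
      rw [map_mul, map_pow, hB.unif, ex_pow, mul_one] at h2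
      by_cases h0 : w (r.coeff k) = 0
      · rw [h0]; exact zero_le
      · obtain ⟨m, hm⟩ := exists_ex h0
        rw [hm, ← ex_add, ex_le_ex] at h2
        rw [hm, ex_le_ex]
        push_cast at h2
        have h3 : (k : ℤ) < Nat.card H := by exact_mod_cast hk
        omega
    · rw [coeff_eq_zero_of_natDegree_lt (by omega), map_zero]
      exact zero_le
  set σ := MulSemiringAction.toRingHom P Ω g with hσ
  have hqσ : q.map σ = q := by
    ext k
    rw [coeff_map, hσ, MulSemiringAction.toRingHom_apply, (hq k).1 g]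
  have hdiv3 : r.map σ + f.map σ * s.map σ = q - C (g • ν) := by
    have h1 := congrArg (fun p => p.map σ) hdiv2
    simp only [Polynomial.map_add, Polynomial.map_mul, Polynomial.map_sub, map_C, hqσ] at h1
    exact h1
  have hfσ : (f.map σ).eval π = ∏ h : H, (π - (g * h) • π) := by
    rw [hf, nmPoly_def, Polynomial.map_prod, eval_prod]
    apply Finset.prod_congr rfl
    intro μ _
    simp [mul_smul, hσ]
  have h4 : g • ν - ν = (q.eval π - ν) - ((r.map σ).eval π + (f.map σ).eval π * (s.map σ).eval π) := by
    have h1 := congrArg (fun p => p.eval π) hdiv3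
    simp only [eval_add, eval_mul, eval_sub, eval_C] at h1
    rw [h1]
    ring
  rw [h4]
  apply w.map_sub_le
  · apply le_max_of_le_right
    rw [← Valuation.map_neg, neg_sub]
    refine hq2.trans ?_
    rw [ex_le_ex]
    push_cast
    omega
  · apply w.map_add_le
    · apply le_max_of_le_right
      apply disc_eval_le _ _ hπ1
      intro k
      rw [coeff_map, hσ, MulSemiringAction.toRingHom_apply, hB.inv]
      exact hrsmall k
    · apply le_max_of_le_left
      rw [map_mul, hfσ, map_prod]
      have h5 : w ((s.map σ).eval π) ≤ 1 := by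
        apply disc_eval_le _ _ hπ1
        intro k
        rw [coeff_map, hσ, MulSemiringAction.toRingHom_apply, hB.inv]
        exact (hsc k).2
      refine (mul_le_of_le_one_right zero_le h5).trans (le_of_eq ?_)
      apply Finset.prod_congr rfl
      intro h _
      rw [← Valuation.map_neg, neg_sub]

theorem disc_eq (hB : Base P w π) [FaithfulSMul P Ω] (H : Subgroup P) [Fintype H] (g : P) :
    w (g • nm H π - nm H π) = ∏ h : H, w ((g * h) • π - π) := by
  apply le_antisymm (disc_le hB H g)
  refine le_trans (le_of_eq ?_) (hB.val_delta H g)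
  apply Finset.prod_congr rfl
  intro h _
  rw [← Valuation.map_neg, neg_sub]

end disc

/-- DISC1 -/
theorem disc1 : ST_DISC1 := by
  intro Ω P _ _ _ _ _ w π hB H g
  exact disc_eq hB H g

end PQ
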