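import Pool.Agent.Helper94.PQ.Stmts

/-!
# The discriminant of the fixed field of a subgroup
-/

set_option autoImplicit false

open scoped Classical

namespace PQ

open BKA Pool.Agent.Helper13.Swan

section disc

variable {Ω P : Type} [Field Ω] [Group P] [MulSemiringAction P Ω] [Fintype P]
  {w : Valuation Ω (WithZero (Multiplicative ℤ))} {π : Ω}

/-- the conjugates of the norm of `π` -/
noncomputable def dX (π : Ω) (H : Subgroup P) (a : P ⧸ H) : Ω := a.out • nm H π

theorem dX_mk (π : Ω) (H : Subgroup P) (g : P) : dX π H (g : P ⧸ H) = g • nm H π := by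
  obtain ⟨h, hh⟩ := QuotientGroup.mk_out_eq_mul H g
  unfold dX
  rw [hh, mul_smul, nm_fixed H π h h.2]

theorem smul_dX (π : Ω) (H : Subgroup P) (s : P) (a : P ⧸ H) : s • dX π H a = dX π H (s • a) := by
  induction a using QuotientGroup.induction_on with
  | H g =>
    have e1 : s • (g : P ⧸ H) = ((s * g : P) : P ⧸ H) := rfl
    rw [e1, dX_mk, dX_mk, mul_smul]

/-- the number of ramification groups that contain `u` -/
noncomputable def dN (hB : Base P w π) (L : ℕ) (u : P) : ℕ :=
  ∑ i ∈ Finset.range L, if u ∈ Rk hB i then 1 else 0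

theorem val_dN (hB : Base P w π) [FaithfulSMul P Ω] {L : ℕ} (hL : Rk hB L = ⊥) {u : P}
    (hu : u ≠ 1) : w (u • π - π) = ex (dN hB L u) := by
  have hne : w (u • π - π) ≠ 0 := by
    rw [Valuation.ne_zero_iff, sub_ne_zero]
    intro h
    exact hu (hB.pi_free h)
  obtain ⟨m, hm⟩ := exists_ex hne
  have h1 : ∀ i : ℕ, u ∈ Rk hB i ↔ (i : ℤ) + 1 ≤ m := by
    intro i
    rw [mem_Rk, hm, ex_le_ex]
  have h2 : ¬ ((L : ℤ) + 1 ≤ m) := by
    rw [← h1, hL, Subgroup.mem_bot]
    exact hu
  have h3 : (1 : ℤ) ≤ m := by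
    have := hB.val_pi_sub_le u
    rw [hm, ex_le_ex] at this
    exact this
  rw [hm]
  congr 1
  unfold dN
  rw [← Finset.card_filter]
  have h4 : (Finset.range L).filter (fun i => u ∈ Rk hB i) = Finset.range m.toNat := by
    ext i
    rw [Finset.mem_filter, Finset.mem_range, Finset.mem_range, h1]
    omega
  rw [h4, Finset.card_range]
  omega

/-- sums over the cosets -/
theorem prod_coset {M : Type*} [CommMonoid M] (H : Subgroup P) [Fintype H] (b : P ⧸ H)
    (K : P → M) : ∏ h : H, K (b.out * h) = ∏ x : P, if (x : P ⧸ H) = b then K x else 1 := by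
  rw [← Finset.prod_filter]
  refine Finset.prod_bij (fun h _ => b.out * h) ?_ ?_ ?_ ?_
  · intro h _
    rw [Finset.mem_filter]
    refine ⟨Finset.mem_univ _, ?_⟩
    have h1 : ((b.out * (h : P) : P) : P ⧸ H) = (b.out : P ⧸ H) :=
      QuotientGroup.mk_mul_of_mem _ h.2
    rw [h1]
    exact QuotientGroup.out_eq' b
  · intro h _ h' _ hh
    exact Subtype.ext (mul_left_cancel hh)
  · intro x hx
    rw [Finset.mem_filter] at hx
    have h1 : b.out⁻¹ * x ∈ H := by
      rw [← QuotientGroup.eq, QuotientGroup.out_eq', hx.2]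
    exact ⟨⟨b.out⁻¹ * x, h1⟩, Finset.mem_univ _, by simp⟩
  · intro h _
    rfl

theorem index_sub_fxn (H : Subgroup P) (g : P) :
    (H.index : ℤ) - (fxn H g : ℤ) = ∑ a : P ⧸ H, if g • a ≠ a then 1 else 0 := by
  have h1 : (H.index : ℤ) = ∑ a : P ⧸ H, 1 := by
    rw [Subgroup.index, Nat.card_eq_fintype_card]
    simp
  have h2 : (fxn H g : ℤ) = ∑ a : P ⧸ H, if g • a = a then 1 else 0 := by
    unfold fxn
    rw [Nat.card_eq_fintype_card, Fintype.card_subtype, Finset.card_filter]
    push_cast
    rfl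
  rw [h1, h2, ← Finset.sum_sub_distrib]
  apply Finset.sum_congr rfl
  intro a _
  by_cases h : g • a = a
  · rw [if_pos h, if_neg (not_not.2 h), sub_self]
  · rw [if_neg h, if_pos h, sub_zero]

theorem disc2_aux (h1 : ST_DISC1) (hB : Base P w π) [FaithfulSMul P Ω] (H : Subgroup P) {L : ℕ}
    (hL : Rk hB L = ⊥) (a b : P ⧸ H) (hab : b ≠ a) :
    w (dX π H b - dX π H a) =
      ex (∑ x : P, if (x : P ⧸ H) = b then (dN hB L (a.out⁻¹ * x) : ℤ) else 0) := by
  have e1 : dX π H b - dX π H a = a.out • ((a.out⁻¹ * b.out) • nm H π - nm H π) := by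
    unfold dX
    rw [smul_sub, mul_smul, smul_inv_smul]
  rw [e1, hB.inv, h1 Ω P w π hB H]
  have e2 : ∀ h : H, w (((a.out⁻¹ * b.out) * (h : P)) • π - π) =
      ex (dN hB L (a.out⁻¹ * (b.out * h))) := by
    intro h
    rw [← val_dN hB hL, mul_assoc]
    intro hc
    apply hab
    have h3 : b.out * (h : P) = a.out := by
      have := mul_eq_one_iff_eq_inv.1 hc
      rw [eq_comm, inv_eq_iff_eq_inv, inv_inv] at this
      exact this
    have h4 : ((b.out * (h : P) : P) : P ⧸ H) = (b.out : P ⧸ H) :=
      QuotientGroup.mk_mul_of_mem _ h.2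
    rw [← QuotientGroup.out_eq' b, ← h4, h3, QuotientGroup.out_eq']
  rw [Finset.prod_congr rfl (fun h _ => e2 h)]
  rw [prod_coset H b (fun x => ex (dN hB L (a.out⁻¹ * x)))]
  rw [← prod_ex]
  apply Finset.prod_congr rfl
  intro x _
  split_ifs
  · rfl
  · exact ex_zero.symm

end disc

/-- DISC2 -/
theorem disc2 (h1 : ST_DISC1) : ST_DISC2 := by
  intro Ω P _ _ _ _ _ w π hB H
  obtain ⟨L, hL⟩ := hB.exists_Rk_bot
  let e : Fin (Fintype.card (P ⧸ H)) ≃ P ⧸ H := (Fintype.equivFin (P ⧸ H)).symm
  refine ⟨(Matrix.vandermonde (fun i => dX π H (e i))).det, ?_, ?_, ?_⟩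
  · rw [Matrix.det_vandermonde_ne_zero_iff]
    intro i j hij
    by_contra hne
    have hne2 : e i ≠ e j := fun h => hne (e.injective h)
    have h2 := disc2_aux h1 hB H hL (e j) (e i) hne2
    simp only at hij
    rw [hij, sub_self, map_zero] at h2
    exact ex_ne_zero _ h2.symm
  · intro s
    have e1 : s • (Matrix.vandermonde (fun i => dX π H (e i))).det =
        ((Matrix.vandermonde (fun i => dX π H (e i))).submatrix
          ((e.trans (MulAction.toPerm s : Equiv.Perm (P ⧸ H))).trans e.symm) id).det := by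
      rw [← MulSemiringAction.toRingHom_apply, RingHom.map_det]
      congr 1
      ext i j
      simp only [RingHom.mapMatrix_apply, Matrix.map_apply, Matrix.vandermonde_apply,
        Matrix.submatrix_apply, MulSemiringAction.toRingHom_apply, smul_pow', smul_dX,
        Equiv.trans_apply, Equiv.apply_symm_apply, MulAction.toPerm_apply, id]
    rw [e1]
    have e2 := Matrix.det_permute
      (((e.trans (MulAction.toPerm s : Equiv.Perm (P ⧸ H))).trans e.symm) :
        Equiv.Perm (Fin (Fintype.card (P ⧸ H))))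
      (Matrix.vandermonde (fun i => dX π H (e i)))
    rw [e2]
    congr 2
    unfold sgn
    rw [Equiv.Perm.sign_trans_trans_symm]
    congr
    exact Subsingleton.elim _ _
  · rw [Matrix.det_vandermonde, map_prod, ← Finset.prod_pow]
    have e1 : ∀ i : Fin (Fintype.card (P ⧸ H)),
        (w (∏ j ∈ Finset.Ioi i, (dX π H (e j) - dX π H (e i)))) ^ 2 =
        ∏ j ∈ Finset.Ioi i, w (dX π H (e j) - dX π H (e i)) * w (dX π H (e i) - dX π H (e j)) := by
      intro i
      rw [map_prod, ← Finset.prod_pow]
      apply Finset.prod_congr rfl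
      intro j _
      rw [pow_two]
      congr 1
      rw [← Valuation.map_neg, neg_sub]
    rw [Finset.prod_congr rfl (fun i _ => e1 i),
      Finset.prod_prod_Ioi_mul_eq_prod_prod_off_diag
        (fun j i => w (dX π H (e j) - dX π H (e i)))]
    have e2 : ∀ i : Fin (Fintype.card (P ⧸ H)),
        ∏ j ∈ {i}ᶜ, w (dX π H (e j) - dX π H (e i)) =
        ex (∑ j ∈ ({i}ᶜ : Finset (Fin (Fintype.card (P ⧸ H)))), ∑ x : P, if (x : P ⧸ H) = e j then
          (dN hB L ((e i).out⁻¹ * x) : ℤ) else 0) := by
      intro i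
      rw [← prod_ex]
      apply Finset.prod_congr rfl
      intro j hj
      rw [Finset.mem_compl, Finset.mem_singleton] at hj
      exact disc2_aux h1 hB H hL (e i) (e j) (fun h => hj (e.injective h))
    rw [Finset.prod_congr rfl (fun i _ => e2 i), prod_ex]
    congr 1
    -- the sum over the cosets
    have e3 : ∀ i : Fin (Fintype.card (P ⧸ H)),
        (∑ j ∈ ({i}ᶜ : Finset (Fin (Fintype.card (P ⧸ H)))), ∑ x : P, if (x : P ⧸ H) = e j then
          (dN hB L ((e i).out⁻¹ * x) : ℤ) else 0) =
        ∑ x : P, if (x : P ⧸ H) ≠ e i then (dN hB L ((e i).out⁻¹ * x) : ℤ) else 0 := by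
      intro i
      rw [Finset.sum_comm]
      apply Finset.sum_congr rfl
      intro x _
      by_cases hx : (x : P ⧸ H) = e i
      · rw [if_neg (not_not.2 hx)]
        apply Finset.sum_eq_zero
        intro j hj
        rw [Finset.mem_compl, Finset.mem_singleton] at hj
        rw [if_neg]
        intro h
        exact hj (e.injective (h.symm.trans hx))
      · rw [if_pos hx]
        rw [Finset.sum_eq_single (e.symm (x : P ⧸ H))]
        · rw [if_pos (e.apply_symm_apply _).symm]
        · intro j _ hj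
          rw [if_neg]
          intro h
          apply hj
          rw [h, e.symm_apply_apply]
        · intro h
          exfalso
          apply h
          rw [Finset.mem_compl, Finset.mem_singleton]
          intro h2
          apply hx
          rw [← h2, e.apply_symm_apply]
    rw [Finset.sum_congr rfl (fun i _ => e3 i)]
    rw [Fintype.sum_equiv e (fun i => ∑ x : P, if (x : P ⧸ H) ≠ e i then
      (dN hB L ((e i).out⁻¹ * x) : ℤ) else 0) (fun a => ∑ x : P, if (x : P ⧸ H) ≠ a then
      (dN hB L (a.out⁻¹ * x) : ℤ) else 0) (fun i => rfl)]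
    -- the right hand side
    have e4 : ∀ i : ℕ, ∑ g : Rk hB i, ((H.index : ℤ) - (fxn H (g : P) : ℤ)) =
        ∑ g : P, if g ∈ Rk hB i then ∑ a : P ⧸ H, (if g • a ≠ a then 1 else 0) else 0 := by
      intro i
      rw [← Finset.sum_filter, Finset.sum_subtype (Finset.univ.filter (fun g : P => g ∈ Rk hB i))
        (p := fun g => g ∈ Rk hB i) (by intro x; simp)]
      apply Finset.sum_congr rfl
      intro g _
      rw [index_sub_fxn]
    have e5 : (∑ᶠ i : ℕ, ∑ g : Rk hB i, ((H.index : ℤ) - (fxn H (g : P) : ℤ))) =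
        ∑ i ∈ Finset.range L, ∑ g : Rk hB i, ((H.index : ℤ) - (fxn H (g : P) : ℤ)) := by
      apply finsum_eq_sum_of_support_subset
      intro i hi
      rw [Finset.coe_range, Set.mem_Iio]
      by_contra hc
      push Not at hc
      apply hi
      change ∑ g : Rk hB i, ((H.index : ℤ) - (fxn H (g : P) : ℤ)) = 0
      rw [e4]
      apply Finset.sum_eq_zero
      intro g _
      split_ifs with hg
      · have hg1 : g = 1 := by
          have := Rk_antitone hB hc hg
          rwa [hL, Subgroup.mem_bot] at this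
        apply Finset.sum_eq_zero
        intro a _
        rw [if_neg]
        rw [hg1, one_smul]
        exact not_not.2 rfl
      · rfl
    rw [e5, Finset.sum_congr rfl (fun i _ => e4 i)]
    -- compare
    have e6 : ∀ a : P ⧸ H, (∑ x : P, if (x : P ⧸ H) ≠ a then
        (dN hB L (a.out⁻¹ * x) : ℤ) else 0) =
        ∑ i ∈ Finset.range L, ∑ g : P, if g ∈ Rk hB i then (if g • a ≠ a then 1 else 0) else 0 := by
      intro a
      rw [Finset.sum_comm]
      apply Fintype.sum_equiv (Equiv.mulRight (a.out)⁻¹)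
      intro x
      rw [Equiv.coe_mulRight]
      have h3 : (x * (a.out)⁻¹) • a = (x : P ⧸ H) := by
        conv_lhs => rw [← QuotientGroup.out_eq' a]
        have : (x * (a.out)⁻¹) • ((a.out : P) : P ⧸ H) = ((x * (a.out)⁻¹ * a.out : P) : P ⧸ H) := rfl
        rw [QuotientGroup.out_eq'] at this
        rw [QuotientGroup.out_eq', this, inv_mul_cancel_right]
      have h4 : ∀ i, x * (a.out)⁻¹ ∈ Rk hB i ↔ (a.out)⁻¹ * x ∈ Rk hB i := by
        intro i
        have hn := Rk_normal hB i
        exact hn.mem_comm_iff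
      rw [h3]
      simp only [h4]
      unfold dN
      push_cast
      by_cases hx : (x : P ⧸ H) = a
      · simp [hx]
      · simp [hx]
    rw [Finset.sum_congr rfl (fun a _ => e6 a), Finset.sum_comm]
    apply Finset.sum_congr rfl
    intro i _
    rw [Finset.sum_comm]
    apply Finset.sum_congr rfl
    intro g _
    split_ifs
    · rfl
    · simp

end PQ
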